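import Pool.Agent.R905.Defs
import Pool.Agent.Y112.SR.Defs

/-!
# Endomorphisms which have a sign: definitions
-/

set_option autoImplicit false

open CategoryTheory Limits MonoidalCategory
open Pool.Agent.Y112.SR Pool.Agent.Y112.KD Pool.Agent.R905
open Pool.Agent.Y116.MT (tr)

universe v u w

namespace Pool.Agent.Zk90.KR

variable {C : Type u} [Category.{v} C] [Preadditive C] [Linear ℚ C] [MonoidalCategory C]
  [SymmetricCategory C]

/-- The endomorphism `f` of the object `P`, tensored with some endomorphism `h` of nonzero trace of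
some object `N`, has a vanishing exterior power or a vanishing symmetric power: all morphisms `g` on
`(P ⊗ N) ⊗ ⋯ ⊗ (P ⊗ N)` (`n` factors) with `g ∘ s = -g` for all exchanges `s` of neighbouring
factors, respectively with `g ∘ s = g`, satisfy `g ∘ ((f ⊗ h) ⊗ ⋯ ⊗ (f ⊗ h)) = 0`. -/
def HasSign [RightRigidCategory C] {P : C} (f : P ⟶ P) : Prop :=
  ∃ (N : C) (h : N ⟶ N), tr h ≠ 0 ∧
    ∃ n, PowerVanishes (-1) (f ⊗ₘ h) n ∨ PowerVanishes 1 (f ⊗ₘ h) n

/-- `S` is a finite sum of endomorphisms `y f x` of `M`, where `x : M ⟶ P`, `f : P ⟶ P`, `y : P ⟶ M`,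
for arbitrary objects `P`, and each `f` has a sign. -/
def IsSignedSum [RightRigidCategory C] {M : C} (S : M ⟶ M) : Prop :=
  ∃ (s : ℕ) (P : Fin s → C) (x : ∀ i, M ⟶ P i) (f : ∀ i, P i ⟶ P i) (y : ∀ i, P i ⟶ M),
    (∀ i, HasSign (f i)) ∧ S = ∑ i, x i ≫ f i ≫ y i

/-- `M` is Kimura-finite up to a phantom: it is the direct sum of an object `(M, e)` with a vanishing
exterior power, an object `(M, f)` with a vanishing symmetric power and an object `(M, 1 - e - f)`
with zero realisation. -/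
def IsFiniteUpToPhantom {K : Type w} [Field K] (R : SuperRealisation C K) (M : C) : Prop :=
  ∃ e f : M ⟶ M, e ≫ e = e ∧ f ≫ f = f ∧ e ≫ f = 0 ∧ f ≫ e = 0 ∧
    (∃ n, PowerVanishes (-1) e n) ∧ (∃ m, PowerVanishes 1 f m) ∧ R.H.map (e + f) = 𝟙 _

end Pool.Agent.Zk90.KR
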