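import Pool.Agent.R905.Kf
import Pool.Agent.Zk90.KS.Num

/-!
# Endomorphisms with vanishing exterior or symmetric powers in rigid tensor categories
-/

set_option autoImplicit false
set_option linter.unusedSectionVars false
set_option linter.unusedSimpArgs false

open CategoryTheory Limits MonoidalCategory
open Pool.Agent.Y112.KD Pool.Agent.R905
open Pool.Agent.Y116.MT (tr)

universe v u w

namespace Pool.Agent.Zk90.KR

section

variable {C : Type u} [Category.{v} C] [Preadditive C] [Linear ℚ C] [MonoidalCategory C]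
  [MonoidalPreadditive C] [MonoidalLinear ℚ C] [SymmetricCategory C]

lemma pv_iff {η : ℚ} (hη : η * η = 1) {M : C} (e : M ⟶ M) (n : ℕ) :
    PowerVanishes η e n ↔ tpm e n ≫ asym η M n = 0 := by
  constructor
  · intro h
    exact h _ _ (fun s hs => (swap_asym hη M hs).1)
  · intro h Z g hg
    rw [← asym_comp hη g hg, ← Category.assoc, h, zero_comp]

lemma pv_comp {η : ℚ} (hη : η * η = 1) {M P : C} (x : M ⟶ P) {f : P ⟶ P} (y : P ⟶ M) {n : ℕ}
    (h : PowerVanishes η f n) : PowerVanishes η (x ≫ f ≫ y) n := by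
  rw [pv_iff hη] at h ⊢
  rw [← tpm_comp, ← tpm_comp, Category.assoc, Category.assoc, asym_nat, ← Category.assoc (tpm f n),
    h, zero_comp, comp_zero]

/-- words in `f` and `g`, with `k` letters `f` and `l` letters `g` -/
inductive Wd {X : C} (f g : X ⟶ X) : ∀ (N k l : ℕ), (tp X N ⟶ tp X N) → Prop
  | nil : Wd f g 0 0 0 (𝟙 _)
  | cf (N k l : ℕ) (z : tp X N ⟶ tp X N) : Wd f g N k l z → Wd f g (N + 1) (k + 1) l (z ⊗ₘ f)
  | cg (N k l : ℕ) (z : tp X N ⟶ tp X N) : Wd f g N k l z → Wd f g (N + 1) k (l + 1) (z ⊗ₘ g)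

lemma Wd.symm {X : C} {f g : X ⟶ X} {N k l : ℕ} {z : tp X N ⟶ tp X N} (h : Wd f g N k l z) :
    Wd g f N l k z := by
  induction h with
  | nil => exact Wd.nil
  | cf N k l z _ ih => exact Wd.cg _ _ _ _ ih
  | cg N k l z _ ih => exact Wd.cf _ _ _ _ ih

lemma Wd.length {X : C} {f g : X ⟶ X} {N k l : ℕ} {z : tp X N ⟶ tp X N} (h : Wd f g N k l z) :
    k + l = N := by
  induction h with
  | nil => rfl
  | cf N k l z _ ih => omega
  | cg N k l z _ ih => omega

/-- a tensor with a last letter before the antisymmetrizer -/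
lemma tensor_asym {η : ℚ} (hη : η * η = 1) {X : C} {N : ℕ} (z : tp X N ⟶ tp X N) (f : X ⟶ X) :
    (z ⊗ₘ f) ≫ asym η X (N + 1) = ((z ≫ asym η X N) ⊗ₘ f) ≫ asym η X (N + 1) := by
  have h1 : (z ≫ asym η X N) ⊗ₘ f = (z ⊗ₘ f) ≫ (asym η X N ▷ X) := by
    rw [← tensorHom_id, tensorHom_comp_tensorHom, Category.comp_id]
  rw [h1, Category.assoc, (absorb hη X N).1]

lemma zero_tensor' {X : C} {N : ℕ} (f : X ⟶ X) : ((0 : tp X N ⟶ tp X N) ⊗ₘ f) = 0 := by
  rw [MonoidalCategory.tensorHom_def, MonoidalPreadditive.zero_whiskerRight, zero_comp]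

/-- moving a letter `g` to the end of a word -/
lemma Wd.move {η : ℚ} (hη : η * η = 1) {X : C} {f g : X ⟶ X} {N k l : ℕ}
    {z : tp X N ⟶ tp X N} (h : Wd f g N k l z) (hl : 1 ≤ l) :
    ∃ (M : ℕ) (w : tp X M ⟶ tp X M) (c : ℚ) (π : tp X (M + 1) ⟶ tp X (M + 1)) (hM : N = M + 1),
      Wd f g M k (l - 1) w ∧
      (hM ▸ z : tp X (M + 1) ⟶ tp X (M + 1)) ≫ asym η X (M + 1) =
        c • π ≫ (w ⊗ₘ g) ≫ asym η X (M + 1) := by
  induction h with
  | nil => omega
  | cg N k l z hz ih =>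
    exact ⟨N, z, 1, 𝟙 _, rfl, hz, by simp⟩
  | cf N k l z hz ih =>
    obtain ⟨M, w, c, π, rfl, hw, h1⟩ := ih hl
    refine ⟨M + 1, w ⊗ₘ f, c * η, (π ▷ X) ≫ sw (tp X M) X, rfl, Wd.cf _ _ _ _ hw, ?_⟩
    have h2 : (z ⊗ₘ f) ≫ asym η X (M + 1 + 1) =
        ((c • π ≫ (w ⊗ₘ g) ≫ asym η X (M + 1)) ⊗ₘ f) ≫ asym η X (M + 1 + 1) := by
      rw [tensor_asym hη]
      exact congrArg (fun t => (t ⊗ₘ f) ≫ asym η X (M + 1 + 1)) h1
    have h3 : ((c • π ≫ (w ⊗ₘ g) ≫ asym η X (M + 1)) ⊗ₘ f) =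
        c • ((π ▷ X) ≫ ((w ⊗ₘ g) ⊗ₘ f) ≫ (asym η X (M + 1) ▷ X)) := by
      rw [← tensorHom_id, ← tensorHom_id, tensorHom_comp_tensorHom, tensorHom_comp_tensorHom,
        Category.comp_id, Category.id_comp, MonoidalCategory.tensorHom_def,
        MonoidalLinear.smul_whiskerRight, Linear.smul_comp, ← MonoidalCategory.tensorHom_def]
    have h4 := (swap_asym hη X (IsSwap.last (X := X) M)).1
    have h5 : ((w ⊗ₘ g) ⊗ₘ f) ≫ asym η X (M + 2) =
        η • sw (tp X M) X ≫ ((w ⊗ₘ f) ⊗ₘ g) ≫ asym η X (M + 2) := by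
      have h6 : asym η X (M + 2) = η • sw (tp X M) X ≫ asym η X (M + 2) := by
        rw [h4, smul_smul, hη, one_smul]
      conv_lhs => rw [h6]
      rw [Linear.comp_smul, ← Category.assoc, sw_nat, Category.assoc]
    change (z ⊗ₘ f) ≫ asym η X (M + 1 + 1) = _
    rw [h2, h3, Linear.smul_comp, Category.assoc, Category.assoc, (absorb hη X (M + 1)).1, h5,
      Linear.comp_smul, smul_smul]
    simp only [Category.assoc]

lemma tpm_mono {η : ℚ} (hη : η * η = 1) {X : C} {f : X ⟶ X} {n N : ℕ}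
    (h : tpm f n ≫ asym η X n = 0) (hN : n ≤ N) : tpm f N ≫ asym η X N = 0 := by
  induction N, hN using Nat.le_induction with
  | base => exact h
  | succ N _ ih =>
    change (tpm f N ⊗ₘ f) ≫ asym η X (N + 1) = 0
    rw [tensor_asym hη, ih, zero_tensor', zero_comp]

/-- words with sufficiently many letters `f` vanish -/
lemma Wd.zero {η : ℚ} (hη : η * η = 1) {X : C} {f g : X ⟶ X} {n : ℕ}
    (hf : tpm f n ≫ asym η X n = 0) : ∀ (l N k : ℕ) (z : tp X N ⟶ tp X N), Wd f g N k l z →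
      n ≤ k → z ≫ asym η X N = 0 := by
  intro l
  induction l with
  | zero =>
    intro N k z hz hk
    have h1 : z = tpm f N ∧ N = k := by
      clear hk hf
      generalize hl : (0 : ℕ) = l at hz
      induction hz with
      | nil => exact ⟨rfl, rfl⟩
      | cf N k l z _ ih =>
        obtain ⟨h1, h2⟩ := ih hl
        exact ⟨by rw [h1]; rfl, by omega⟩
      | cg N k l z _ ih => omega
    rw [h1.1]
    exact tpm_mono hη hf (by omega)
  | succ l ih =>
    intro N k z hz hk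
    obtain ⟨M, w, c, π, rfl, hw, h1⟩ := hz.move hη (by omega)
    have h2 := ih M k w (by simpa using hw) hk
    have h3 : z ≫ asym η X (M + 1) = c • π ≫ (w ⊗ₘ g) ≫ asym η X (M + 1) := h1
    rw [h3, tensor_asym hη, h2, zero_tensor', zero_comp, comp_zero, smul_zero]

lemma tensor_add' {X Y : C} (z z' : X ⟶ X) (f : Y ⟶ Y) : (z + z') ⊗ₘ f = z ⊗ₘ f + z' ⊗ₘ f := by
  rw [MonoidalCategory.tensorHom_def, MonoidalPreadditive.add_whiskerRight, Preadditive.add_comp,
    ← MonoidalCategory.tensorHom_def, ← MonoidalCategory.tensorHom_def]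

lemma tensor_add'' {X Y : C} (z : X ⟶ X) (f f' : Y ⟶ Y) : z ⊗ₘ (f + f') = z ⊗ₘ f + z ⊗ₘ f' := by
  rw [MonoidalCategory.tensorHom_def, MonoidalPreadditive.whiskerLeft_add, Preadditive.comp_add,
    ← MonoidalCategory.tensorHom_def, ← MonoidalCategory.tensorHom_def]

/-- the tensor power of a sum is a sum of words -/
lemma tpm_add_mem {X : C} (f g : X ⟶ X) (N : ℕ) : tpm (f + g) N ∈
    AddSubgroup.closure {z : tp X N ⟶ tp X N | ∃ k l, Wd f g N k l z} := by
  induction N with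
  | zero => exact AddSubgroup.subset_closure ⟨0, 0, Wd.nil⟩
  | succ N ih =>
    have key : ∀ t : tp X N ⟶ tp X N,
        t ∈ AddSubgroup.closure {z : tp X N ⟶ tp X N | ∃ k l, Wd f g N k l z} →
        (t ⊗ₘ (f + g) : tp X (N + 1) ⟶ tp X (N + 1)) ∈
          AddSubgroup.closure {z : tp X (N + 1) ⟶ tp X (N + 1) | ∃ k l, Wd f g (N + 1) k l z} := by
      intro t ht
      induction ht using AddSubgroup.closure_induction with
      | mem z hz =>
        obtain ⟨k, l, hz⟩ := hz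
        rw [tensor_add'']
        exact add_mem (AddSubgroup.subset_closure ⟨_, _, Wd.cf _ _ _ _ hz⟩)
          (AddSubgroup.subset_closure ⟨_, _, Wd.cg _ _ _ _ hz⟩)
      | zero =>
        rw [zero_tensor']
        exact zero_mem _
      | add z z' _ _ h1 h2 =>
        rw [tensor_add']
        exact add_mem h1 h2
      | neg z _ h1 =>
        have e1 : (-z) ⊗ₘ (f + g) = -(z ⊗ₘ (f + g)) := by
          rw [eq_neg_iff_add_eq_zero, ← tensor_add', neg_add_cancel, zero_tensor']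
        rw [e1]
        exact neg_mem h1
    exact key _ ih

/-- If the powers of order `n` of `f` and of order `m` of `g` vanish then the power of order
`n + m` of `f + g` vanishes. -/
lemma pv_add {η : ℚ} (hη : η * η = 1) {X : C} {f g : X ⟶ X} {n m : ℕ}
    (hf : PowerVanishes η f n) (hg : PowerVanishes η g m) : PowerVanishes η (f + g) (n + m) := by
  rw [pv_iff hη] at hf hg ⊢
  have key : ∀ t : tp X (n + m) ⟶ tp X (n + m),
      t ∈ AddSubgroup.closure {z : tp X (n + m) ⟶ tp X (n + m) | ∃ k l, Wd f g (n + m) k l z} →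
      t ≫ asym η X (n + m) = 0 := by
    intro t ht
    induction ht using AddSubgroup.closure_induction with
    | mem z hz =>
      obtain ⟨k, l, hz⟩ := hz
      have h1 := hz.length
      by_cases hk : n ≤ k
      · exact Wd.zero hη hf _ _ _ _ hz hk
      · exact Wd.zero hη hg _ _ _ _ hz.symm (by omega)
    | zero => rw [zero_comp]
    | add z z' _ _ h1 h2 => rw [Preadditive.add_comp, h1, h2, add_zero]
    | neg z _ h1 => rw [Preadditive.neg_comp, h1, neg_zero]
  exact key _ (tpm_add_mem f g _)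

lemma pv_mono {η : ℚ} (hη : η * η = 1) {X : C} {f : X ⟶ X} {n N : ℕ}
    (h : PowerVanishes η f n) (hN : n ≤ N) : PowerVanishes η f N := by
  rw [pv_iff hη] at h ⊢
  exact tpm_mono hη h hN

end

end Pool.Agent.Zk90.KR
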