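import Pool.Agent.Zk90.KR.Main
import Pool.Agent.R905.Div

/-!
# Kimura-finiteness up to phantoms and the realisation
-/

set_option autoImplicit false
set_option linter.unusedSectionVars false
set_option linter.unusedSimpArgs false

open CategoryTheory Limits MonoidalCategory
open Pool.Agent.Y112.SR Pool.Agent.Y112.KD Pool.Agent.R905
open Pool.Agent.Zk90.KS (exists_idem nil_of_mem exists_eps)
open Functor.LaxMonoidal Functor.OplaxMonoidal

universe v u w

namespace Pool.Agent.Zk90.KR

variable {C : Type u} [Category.{v} C] [Preadditive C] [Linear ℚ C] [MonoidalCategory C]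
  [MonoidalPreadditive C] [MonoidalLinear ℚ C] [SymmetricCategory C]
  {K : Type w} [Field K] (R : SuperRealisation C K)

lemma map_tensor_el {X Y : C} (f : X ⟶ X) (g : Y ⟶ Y) (x : R.H.obj X) (y : R.H.obj Y) :
    (R.H.map (f ⊗ₘ g)).hom ((μ R.H X Y).hom (x ⊗ₜ[K] y)) =
    (μ R.H X Y).hom ((R.H.map f).hom x ⊗ₜ[K] (R.H.map g).hom y) := by
  rw [MonoidalCategory.tensorHom_def, Functor.map_comp, ModuleCat.hom_comp, LinearMap.comp_apply,
    map_whiskerRight_el, map_whiskerLeft_el]

lemma map_tpm_vp {X : C} (f : X ⟶ X) (v : R.H.obj X) (n : ℕ) :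
    (R.H.map (tpm f n)).hom (vp R v n) = vp R ((R.H.map f).hom v) n := by
  induction n with
  | zero =>
    have e1 : tpm f 0 = 𝟙 _ := rfl
    rw [e1, CategoryTheory.Functor.map_id]
    rfl
  | succ n ih =>
    have e1 : tpm f (n + 1) = tpm f n ⊗ₘ f := rfl
    rw [e1, vp_succ, vp_succ, map_tensor_el, ih]

/-- An endomorphism with a vanishing power acts as zero on the part of the wrong parity. -/
lemma map_kill {X : C} {η : ℚ} (hη : η * η = 1) {f : X ⟶ X} {n : ℕ}
    (hf : PowerVanishes η f n) (v : R.H.obj X) (hv : (R.par X).hom v = (η : K) • v) :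
    (R.H.map f).hom v = 0 := by
  have hc := R_charZero R
  by_contra hne
  apply vp_ne_zero R _ hne n
  rw [← map_tpm_vp, ← map_asym_vp R hη v hv n, ← LinearMap.comp_apply, ← ModuleCat.hom_comp,
    ← Functor.map_comp, ← asym_nat, (pv_iff hη f n).1 hf, Functor.map_zero]
  rfl

/-- the realisation as a homomorphism of rings -/
noncomputable def rho (M : C) : End M →+* End (R.H.obj M) where
  toFun f := R.H.map f
  map_one' := R.H.map_id M
  map_mul' a b := R.H.map_comp b a
  map_zero' := R.H.map_zero M M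
  map_add' _ _ := R.H.map_add

lemma two_cancel {V : ModuleCat.{w} K} {x y : End V} (h2 : (2 : K) ≠ 0) (h : x + x = y + y) :
    x = y := by
  have h1 : (2 : K) • (x : V ⟶ V) = (2 : K) • (y : V ⟶ V) := by
    rw [two_smul, two_smul]
    exact h
  have h3 := congrArg (fun z : V ⟶ V => (2 : K)⁻¹ • z) h1
  simpa [smul_smul, inv_mul_cancel₀ h2] using h3

lemma rho_even {M : C} {a : End M} (ha : DieI (-1) a) :
    rho R M a * (show End (R.H.obj M) from R.par M) = rho R M a := by
  obtain ⟨n, ha⟩ := ha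
  have h1 : rho R M a * (1 - (show End (R.H.obj M) from R.par M)) = 0 := by
    apply ModuleCat.hom_ext
    ext v
    have h2 := map_kill R eta_neg ha (v - (R.par M).hom v) (by
      have h3 : (R.par M).hom ((R.par M).hom v) = v := by
        rw [← LinearMap.comp_apply, ← ModuleCat.hom_comp, R.par_sq]
        rfl
      rw [map_sub, h3]
      push_cast
      rw [neg_smul, one_smul]
      abel)
    exact h2
  rw [mul_sub, mul_one, sub_eq_zero] at h1
  exact h1.symm

lemma rho_odd {M : C} {a : End M} (ha : DieI 1 a) :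
    rho R M a * (show End (R.H.obj M) from R.par M) = -rho R M a := by
  obtain ⟨n, ha⟩ := ha
  have h1 : rho R M a * (1 + (show End (R.H.obj M) from R.par M)) = 0 := by
    apply ModuleCat.hom_ext
    ext v
    have h2 := map_kill R eta_one ha (v + (R.par M).hom v) (by
      have h3 : (R.par M).hom ((R.par M).hom v) = v := by
        rw [← LinearMap.comp_apply, ← ModuleCat.hom_comp, R.par_sq]
        rfl
      rw [map_add, h3]
      push_cast
      rw [one_smul]
      abel)
    exact h2
  rw [mul_add, mul_one] at h1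
  exact (eq_neg_of_add_eq_zero_right h1)

lemma rho_idem {M : C} {a b : End M} (ha : DieI (-1) a) (hb : DieI 1 b)
    (hab : rho R M (a + b) = 1) : rho R M a * rho R M a = rho R M a ∧
      rho R M b = 1 - rho R M a := by
  have hc := R_charZero R
  have h1 := rho_even R ha
  have h2 := rho_odd R hb
  set P : End (R.H.obj M) := R.par M with hP
  rw [map_add] at hab
  have h3 : P = rho R M a - rho R M b := by
    have h4 : (rho R M a + rho R M b) * P = P := by rw [hab, one_mul]
    rw [add_mul, h1, h2] at h4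
    rw [← h4]
    abel
  have h5 : rho R M b = 1 - rho R M a := by
    rw [← hab]
    abel
  refine ⟨?_, h5⟩
  rw [h3, h5] at h1
  apply two_cancel (K := K) two_ne_zero
  have h6 : rho R M a * (rho R M a - (1 - rho R M a)) =
      rho R M a * rho R M a + rho R M a * rho R M a - rho R M a := by
    noncomm_ring
  rw [h6, sub_eq_iff_eq_add] at h1
  exact h1

section rigid

variable [RightRigidCategory C]

lemma nil_of_rho (hU : UnitQ C) {η : ℚ} (hη : η * η = 1) {M : C} {c : End M} (hc : DieI η c)
    (h0 : rho R M c = 0) : IsNilpotent c := by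
  refine (finI_dieI hU hη M).nil_of_tr (by rintro rfl; norm_num at hη) hc fun k hk => ?_
  apply trq_eq_zero R hU
  have h1 : rho R M (c ^ k) = 0 := by
    rw [map_pow, h0, zero_pow (by omega)]
  exact h1

/-- lifting an idempotent -/
lemma lift_idem (hU : UnitQ C) {η : ℚ} (hη : η * η = 1) {M : C} {a : End M} (ha : DieI η a)
    (h0 : rho R M a * rho R M a = rho R M a) : ∃ e w : End M, e * e = e ∧ e = a * w ∧ DieI η e ∧
      rho R M e = rho R M a := by
  have h1 : IsNilpotent (a * a - a) := by
    refine nil_of_rho R hU hη ?_ ?_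
    · have h2 : a * a - a = a * (a - 1) := by rw [mul_sub, mul_one]
      rw [h2]
      exact DieI.right hη a _ ha
    · rw [map_sub, map_mul, h0, sub_self]
  obtain ⟨N, hN⟩ := h1
  have hN' : (a * a - a) ^ (N + 1) = 0 := by rw [pow_succ, hN, zero_mul]
  obtain ⟨ε, w, w', s, f1, f2, -, f4, -, -, -⟩ := exists_eps hN'
  refine ⟨ε, a ^ N * w, f1, ?_, ?_, ?_⟩
  · rw [f2, pow_succ', mul_assoc]
  · rw [f2, pow_succ', mul_assoc]
    exact DieI.right hη a _ ha
  · have h3 : rho R M (ε - a) = 0 := by
      rw [f4, map_mul, map_sub, map_mul, h0, sub_self, zero_mul]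
    rw [map_sub, sub_eq_zero] at h3
    exact h3

/-- The decomposition up to a phantom. -/
lemma decompose (hU : UnitQ C) {M : C} {a b : End M} (ha : DieI (-1) a) (hb : DieI 1 b)
    (hab : rho R M (a + b) = 1) : ∃ e f : End M, e * e = e ∧ f * f = f ∧ e * f = 0 ∧ f * e = 0 ∧
      DieI (-1) e ∧ DieI 1 f ∧ rho R M (e + f) = 1 := by
  obtain ⟨h1, h2⟩ := rho_idem R ha hb hab
  obtain ⟨e, -, e1, -, e3, e4⟩ := lift_idem R hU eta_neg ha h1
  have g1 : DieI 1 ((1 - e) * b) := DieI.left eta_one _ _ hb
  have g2 : rho R M ((1 - e) * b) = 1 - rho R M a := by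
    rw [map_mul, map_sub, map_one, e4, h2]
    have : (1 - rho R M a) * (1 - rho R M a) = 1 - rho R M a - rho R M a +
        rho R M a * rho R M a := by noncomm_ring
    rw [this, h1]
    abel
  have g3 : rho R M ((1 - e) * b) * rho R M ((1 - e) * b) = rho R M ((1 - e) * b) := by
    rw [g2]
    have : (1 - rho R M a) * (1 - rho R M a) = 1 - rho R M a - rho R M a +
        rho R M a * rho R M a := by noncomm_ring
    rw [this, h1]
    abel
  obtain ⟨f, w, f1, f2, f3, f4⟩ := lift_idem R hU eta_one g1 g3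
  have hef : e * f = 0 := by
    rw [f2, ← mul_assoc, ← mul_assoc, mul_sub, mul_one, e1, sub_self, zero_mul, zero_mul]
  refine ⟨e, f * (1 - e), e1, ?_, ?_, ?_, e3, DieI.right eta_one _ _ f3, ?_⟩
  · have : f * (1 - e) * (f * (1 - e)) = f * f * (1 - e) - f * (e * f) * (1 - e) := by
      noncomm_ring
    rw [this, hef, f1, mul_zero, zero_mul, sub_zero]
  · rw [← mul_assoc, hef, zero_mul]
  · rw [mul_assoc, sub_mul, one_mul, e1, sub_self, mul_zero]
  · rw [map_add, map_mul, map_sub, map_one, e4, f4, g2]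
    have : (1 - rho R M a) * (1 - rho R M a) = 1 - rho R M a - rho R M a +
        rho R M a * rho R M a := by noncomm_ring
    rw [this, h1]
    abel

/-- A Kimura-finite object has no phantom summand. -/
lemma no_phantom (hU : UnitQ C) {M : C} (h : IsKimuraFinite M) {p : End M} (hp : p * p = p)
    (h0 : rho R M p = 0) : p = 0 := by
  obtain ⟨e, h1, ⟨n, hn⟩, m, hm⟩ := h
  let E : End M := e
  have hE : DieI (-1) E := ⟨n, hn⟩
  have hO : DieI 1 (1 - E) := ⟨m, hm⟩
  have c1 : IsNilpotent (p * E * p) := by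
    refine nil_of_rho R hU eta_neg (DieI.right eta_neg _ _ (DieI.left eta_neg _ _ hE)) ?_
    rw [map_mul, h0, mul_zero]
  have c2 : IsNilpotent (p * (1 - E) * p) := by
    refine nil_of_rho R hU eta_one (DieI.right eta_one _ _ (DieI.left eta_one _ _ hO)) ?_
    rw [map_mul, h0, mul_zero]
  have c3 : p * (1 - E) * p = p - p * E * p := by
    rw [mul_sub, mul_one, sub_mul, hp]
  have c4 : Commute (p * E * p) (p * (1 - E) * p) := by
    rw [c3]
    refine Commute.sub_right ?_ (Commute.refl _)
    change p * E * p * p = p * (p * E * p)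
    rw [mul_assoc (p * E), hp, ← mul_assoc, ← mul_assoc, hp]
  have c5 : IsNilpotent p := by
    have c6 := c4.isNilpotent_add c1 c2
    have c7 : p * E * p + p * (1 - E) * p = p := by
      rw [c3]
      abel
    rwa [c7] at c6
  obtain ⟨N, hN⟩ := c5
  have c8 : p ^ (N + 1) = p := by
    clear hN
    induction N with
    | zero => rw [zero_add, pow_one]
    | succ N ih => rw [pow_succ, ih, hp]
  rw [pow_succ, hN, zero_mul] at c8
  exact c8.symm

/-- **Kimura-finiteness up to phantoms.** -/
theorem hom_main (hU : UnitQ C) (M : C) :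
    (IsFiniteUpToPhantom R M ↔ ∃ S : M ⟶ M, IsSignedSum S ∧ R.H.map S = 𝟙 _) ∧
    (IsKimuraFinite M ↔ (∃ S : M ⟶ M, IsSignedSum S ∧ R.H.map S = 𝟙 _) ∧
      ∀ p : M ⟶ M, p ≫ p = p → R.H.map p = 0 → p = 0) := by
  have key : (∃ S : M ⟶ M, IsSignedSum S ∧ R.H.map S = 𝟙 _) →
      ∃ e f : End M, e * e = e ∧ f * f = f ∧ e * f = 0 ∧ f * e = 0 ∧
      DieI (-1) e ∧ DieI 1 f ∧ rho R M (e + f) = 1 := by
    rintro ⟨S, hS, h1⟩
    obtain ⟨a, b, ha, hb, hab⟩ := IsSignedSum.split hU (S := S) hS
    refine decompose R hU ha hb ?_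
    rw [hab]
    exact h1
  refine ⟨⟨?_, ?_⟩, ?_, ?_⟩
  · rintro ⟨e, f, -, -, -, -, ⟨n, he⟩, ⟨m, hf⟩, h⟩
    exact ⟨e + f, isSignedSum_add hU he hf, h⟩
  · intro h
    obtain ⟨e, f, h1, h2, h3, h4, h5, h6, h7⟩ := key h
    exact ⟨e, f, h1, h2, h4, h3, h5, h6, h7⟩
  · intro h
    constructor
    · have h1 := ((main hU M).out 0 1).1 h
      exact ⟨𝟙 M, h1, R.H.map_id M⟩
    · intro p hp h0
      exact no_phantom R hU h (p := p) hp h0
  · rintro ⟨h, h0⟩
    obtain ⟨e, f, h1, h2, h3, h4, h5, h6, h7⟩ := key h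
    have h8 : (1 - (e + f) : End M) = 0 := by
      refine h0 _ ?_ ?_
      · have h9 : (1 - (e + f)) * (1 - (e + f)) = 1 - (e + f) - (e + f) + (e * e + e * f + f * e + f * f) := by
          noncomm_ring
        change (1 - (e + f)) * (1 - (e + f)) = 1 - (e + f)
        rw [h9, h1, h2, h3, h4]
        abel
      · have h9 : rho R M (1 - (e + f)) = 0 := by
          rw [map_sub, map_one, h7, sub_self]
        exact h9
    exact kimura_of_sum hU h5 h6 (sub_eq_zero.1 h8).symm

end rigid

end Pool.Agent.Zk90.KR
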