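import Pool.Agent.TH829.Kim.Alg
import Mathlib.RingTheory.PowerSeries.Derivative
import Mathlib.GroupTheory.Perm.Fin
import Mathlib.Tactic

/-!
# The elementary and complete symmetric functions of an endomorphism
-/

set_option autoImplicit false
set_option linter.unusedSectionVars false

open Pool.Agent.TH829.Kim (F F_succ update_pow)

universe w

namespace Pool.Agent.Zk90.KR

variable {R : Type w} [Ring R] [Algebra ℚ R] (t : R →ₗ[ℚ] ℚ) (η : ℚ) (h : R)

/-- the contraction with powers of `h` -/
noncomputable def Ph (n : ℕ) (a : Fin n → ℕ) : ℚ := F t η n (fun j => h ^ a j)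

lemma Ph_succ (n : ℕ) (a : Fin (n + 1) → ℕ) : Ph t η h (n + 1) a =
    t (h ^ a 0) * Ph t η h n (fun j => a j.succ) +
      η * ∑ i, Ph t η h n (Function.update (fun j : Fin n => a j.succ) i (a 0 + a i.succ)) := by
  rw [Ph, F_succ]
  congr 2
  refine Finset.sum_congr rfl fun i _ => ?_
  rw [Ph, update_pow]

lemma Ph_swap (n : ℕ) (a : Fin (n + 2) → ℕ) :
    Ph t η h (n + 2) (a ∘ Equiv.swap 0 1) = Ph t η h (n + 2) a := by
  have hs : ∀ i : Fin n, (Equiv.swap (0 : Fin (n + 2)) 1) i.succ.succ = i.succ.succ := by
    intro i
    apply Equiv.swap_apply_of_ne_of_ne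
    · exact Fin.succ_ne_zero _
    · intro h
      exact Fin.succ_ne_zero i (Fin.succ_injective _ h)
  have hs0 : (Equiv.swap (0 : Fin (n + 2)) 1) 0 = 1 := Equiv.swap_apply_left _ _
  have hs1 : (Equiv.swap (0 : Fin (n + 2)) 1) 1 = 0 := Equiv.swap_apply_right _ _
  -- expansion of the second level
  have key : ∀ b : Fin (n + 2) → ℕ, Ph t η h (n + 2) b =
      t (h ^ b 0) * (t (h ^ b 1) * Ph t η h n (fun j => b j.succ.succ)) +
      t (h ^ b 0) * (η * ∑ i, Ph t η h n (Function.update (fun j : Fin n => b j.succ.succ) i
        (b 1 + b i.succ.succ))) +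
      t (h ^ b 1) * (η * ∑ i, Ph t η h n (Function.update (fun j : Fin n => b j.succ.succ) i
        (b 0 + b i.succ.succ))) +
      η * (t (h ^ (b 0 + b 1)) * Ph t η h n (fun j => b j.succ.succ) +
        η * ∑ i, Ph t η h n (Function.update (fun j : Fin n => b j.succ.succ) i
          (b 0 + b 1 + b i.succ.succ))) +
      η * (η * ∑ i, ∑ j, Ph t η h n (Function.update (Function.update
        (fun j : Fin n => b j.succ.succ) i (b 0 + b i.succ.succ)) j
          (b 1 + (Function.update (fun j : Fin n => b j.succ.succ) i (b 0 + b i.succ.succ)) j))) := by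
    intro b
    rw [Ph_succ, Ph_succ]
    have h1 : ∀ i : Fin (n + 1), Ph t η h (n + 1)
        (Function.update (fun j : Fin (n + 1) => b j.succ) i (b 0 + b i.succ)) =
        t (h ^ (Function.update (fun j : Fin (n + 1) => b j.succ) i (b 0 + b i.succ)) 0) *
          Ph t η h n (fun j => (Function.update (fun j : Fin (n + 1) => b j.succ) i
            (b 0 + b i.succ)) j.succ) +
        η * ∑ k, Ph t η h n (Function.update (fun j : Fin n =>
          (Function.update (fun j : Fin (n + 1) => b j.succ) i (b 0 + b i.succ)) j.succ) k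
            ((Function.update (fun j : Fin (n + 1) => b j.succ) i (b 0 + b i.succ)) 0 +
              (Function.update (fun j : Fin (n + 1) => b j.succ) i (b 0 + b i.succ)) k.succ)) :=
      fun i => Ph_succ t η h n _
    rw [Finset.sum_congr rfl (fun i _ => h1 i), Fin.sum_univ_succ]
    have h2 : ∀ i : Fin n, (fun j : Fin n => (Function.update (fun j : Fin (n + 1) => b j.succ)
        i.succ (b 0 + b i.succ.succ)) j.succ) =
        Function.update (fun j : Fin n => b j.succ.succ) i (b 0 + b i.succ.succ) := by
      intro i
      funext j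
      by_cases hj : j = i
      · subst hj
        rw [Function.update_self, Function.update_self]
      · rw [Function.update_of_ne hj, Function.update_of_ne
          (fun hh => hj (Fin.succ_injective _ hh))]
    have h3 : (fun j : Fin n => (Function.update (fun j : Fin (n + 1) => b j.succ) 0
        (b 0 + b (Fin.succ 0))) j.succ) = fun j : Fin n => b j.succ.succ := by
      funext j
      rw [Function.update_of_ne (Fin.succ_ne_zero j)]
    have h4 : ∀ i : Fin n, (Function.update (fun j : Fin (n + 1) => b j.succ)
        i.succ (b 0 + b i.succ.succ)) 0 = b 1 := by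
      intro i
      rw [Function.update_of_ne (Fin.succ_ne_zero i).symm]
      rfl
    have h5 : ∀ i k : Fin n, (Function.update (fun j : Fin (n + 1) => b j.succ)
        i.succ (b 0 + b i.succ.succ)) k.succ =
        (Function.update (fun j : Fin n => b j.succ.succ) i (b 0 + b i.succ.succ)) k :=
      fun i k => congrFun (h2 i) k
    have h6 : ∀ k : Fin n, (Function.update (fun j : Fin (n + 1) => b j.succ) 0
        (b 0 + b (Fin.succ 0))) k.succ = b k.succ.succ := fun k => congrFun h3 k
    simp only [h2, h3, h4, h5, h6, Function.update_self]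
    have h7 : b (Fin.succ 0) = b 1 := rfl
    rw [h7]
    rw [Finset.sum_add_distrib, ← Finset.mul_sum, ← Finset.mul_sum]
    ring
  rw [key, key]
  simp only [Function.comp_apply, hs, hs0, hs1]
  have e2 : ∀ i j : Fin n, Function.update (Function.update
        (fun j : Fin n => a j.succ.succ) i (a 1 + a i.succ.succ)) j
          (a 0 + (Function.update (fun j : Fin n => a j.succ.succ) i (a 1 + a i.succ.succ)) j) =
      Function.update (Function.update
        (fun j : Fin n => a j.succ.succ) j (a 0 + a j.succ.succ)) i
          (a 1 + (Function.update (fun j : Fin n => a j.succ.succ) j (a 0 + a j.succ.succ)) i) := by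
    intro i j
    by_cases hij : i = j
    · subst hij
      simp only [Function.update_self, Function.update_idem]
      congr 1
      ring
    · rw [Function.update_comm hij, Function.update_of_ne (Ne.symm hij),
        Function.update_of_ne hij]
  have e3 : (∑ i, ∑ j, Ph t η h n (Function.update (Function.update
        (fun j : Fin n => a j.succ.succ) i (a 1 + a i.succ.succ)) j
          (a 0 + (Function.update (fun j : Fin n => a j.succ.succ) i (a 1 + a i.succ.succ)) j))) =
      ∑ i, ∑ j, Ph t η h n (Function.update (Function.update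
        (fun j : Fin n => a j.succ.succ) i (a 0 + a i.succ.succ)) j
          (a 1 + (Function.update (fun j : Fin n => a j.succ.succ) i (a 0 + a i.succ.succ)) j)) := by
    rw [Finset.sum_comm]
    refine Finset.sum_congr rfl fun i _ => Finset.sum_congr rfl fun j _ => ?_
    rw [e2]
  rw [e3]
  have e4 : ∀ i : Fin n, a 1 + a 0 + a i.succ.succ = a 0 + a 1 + a i.succ.succ := fun i => by ring
  simp only [e4, add_comm (a 1) (a 0)]
  ring

lemma Ph_perm (n : ℕ) (a : Fin n → ℕ) (σ : Equiv.Perm (Fin n)) :
    Ph t η h n (a ∘ σ) = Ph t η h n a := by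
  induction n with
  | zero => 
    congr 1
    exact Subsingleton.elim _ _
  | succ n ih =>
    rcases n with - | n
    · congr 1
      funext i
      exact congrArg a (Fin.ext (by omega))
    · have hσ : σ ∈ Submonoid.closure (Set.range fun i : Fin (n + 1) =>
          Equiv.swap i.castSucc i.succ) := by
        rw [Equiv.Perm.mclosure_swap_castSucc_succ]
        exact Submonoid.mem_top _
      induction hσ using Submonoid.closure_induction generalizing a with
      | one => rfl
      | mul x y _ _ hx hy =>
        have h1 : a ∘ (x * y : Equiv.Perm (Fin (n + 2))) = (a ∘ x) ∘ y := rfl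
        rw [h1, hy, hx]
      | mem x hx =>
        obtain ⟨i, rfl⟩ := hx
        refine Fin.cases ?_ (fun i => ?_) i
        · exact Ph_swap t η h n a
        · have h0 : (Equiv.swap i.succ.castSucc i.succ.succ : Equiv.Perm (Fin (n + 2))) 0 = 0 :=
            Equiv.swap_apply_of_ne_of_ne (by
              intro hh
              have := congrArg Fin.val hh
              simp at this) (Fin.succ_ne_zero _).symm
          have h1 : ∀ j : Fin (n + 1), (Equiv.swap i.succ.castSucc i.succ.succ :
              Equiv.Perm (Fin (n + 2))) j.succ =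
              ((Equiv.swap i.castSucc i.succ : Equiv.Perm (Fin (n + 1))) j).succ := by
            intro j
            rw [show (i.succ.castSucc : Fin (n + 2)) = i.castSucc.succ from rfl]
            simp only [Equiv.swap_apply_def, Fin.succ_inj]
            split_ifs <;> rfl
          change Ph t η h (n + 2) (a ∘ (Equiv.swap i.succ.castSucc i.succ.succ)) = _
          rw [Ph_succ t η h (n + 1) (a ∘ (Equiv.swap i.succ.castSucc i.succ.succ)),
            Ph_succ t η h (n + 1) a]
          simp only [Function.comp_apply, h0, h1]
          set s : Equiv.Perm (Fin (n + 1)) := Equiv.swap i.castSucc i.succ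
          congr 1
          · congr 1
            exact ih (fun j => a j.succ) s
          · congr 1
            rw [← Equiv.sum_comp s (fun i => Ph t η h (n + 1)
              (Function.update (fun j : Fin (n + 1) => a j.succ) i (a 0 + a i.succ)))]
            refine Finset.sum_congr rfl fun i _ => ?_
            rw [← ih (Function.update (fun j : Fin (n + 1) => a j.succ) (s i) (a 0 + a (s i).succ)) s]
            congr 1
            funext j
            rw [Function.comp_apply]
            by_cases hj : j = i
            · subst hj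
              rw [Function.update_self, Function.update_self]
            · rw [Function.update_of_ne hj, Function.update_of_ne (fun hh => hj (s.injective hh))]

/-- the contraction with equal letters but one -/
lemma Ph_update (n : ℕ) (i : Fin (n + 1)) (k : ℕ) :
    Ph t η h (n + 1) (Function.update (fun _ => 1) i k) =
      Ph t η h (n + 1) (Function.update (fun _ => 1) 0 k) := by
  rw [← Ph_perm t η h (n + 1) (Function.update (fun _ => 1) i k) (Equiv.swap 0 i)]
  congr 1
  funext j
  rw [Function.comp_apply]
  by_cases hj : j = 0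
  · subst hj
    rw [Equiv.swap_apply_left, Function.update_self, Function.update_self]
  · rw [Function.update_of_ne hj]
    by_cases hi : j = i
    · subst hi
      rw [Equiv.swap_apply_right, Function.update_of_ne (Ne.symm hj)]
    · rw [Equiv.swap_apply_of_ne_of_ne hj hi, Function.update_of_ne hi]

lemma ite_update (n k : ℕ) : (fun j : Fin (n + 1) => if (j : ℕ) = 0 then k else 1) =
    Function.update (fun _ => 1) 0 k := by
  funext j
  refine Fin.cases ?_ (fun i => ?_) j
  · simp
  · rw [Function.update_of_ne (Fin.succ_ne_zero i), if_neg]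
    rw [Fin.val_succ]
    omega

/-- Newton's identities, first form -/
lemma Ph_first (n k : ℕ) : Ph t η h (n + 1) (Function.update (fun _ => 1) 0 k) =
    t (h ^ k) * Ph t η h n (fun _ => 1) + η * (if n = 0 then 0 else
      n * Ph t η h n (fun j => if (j : ℕ) = 0 then k + 1 else 1)) := by
  rw [Ph_succ, Function.update_self]
  have h1 : (fun j : Fin n => (Function.update (fun _ : Fin (n + 1) => 1) 0 k) j.succ) =
      fun _ => 1 := by
    funext j
    rw [Function.update_of_ne (Fin.succ_ne_zero j)]
  have h2 : ∀ j : Fin n, (Function.update (fun _ : Fin (n + 1) => 1) 0 k) j.succ = 1 :=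
    fun j => congrFun h1 j
  simp only [h2]
  congr 2
  rcases n with - | n
  · simp
  · rw [if_neg (by omega), Finset.sum_congr rfl (fun i _ => Ph_update t η h n i (k + 1)),
      Finset.sum_const, Finset.card_univ, Fintype.card_fin, nsmul_eq_mul, ite_update]

/-- the normalized symmetric function -/
noncomputable def cf (n : ℕ) : ℚ := Ph t η h n (fun _ => 1) / n.factorial

/-- Newton's identities -/
lemma newton (n : ℕ) : ((n : ℚ) + 1) * cf t η h (n + 1) =
    ∑ i ∈ Finset.range (n + 1), η ^ i * t (h ^ (i + 1)) * cf t η h (n - i) := by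
  have key : ∀ n k : ℕ, Ph t η h (n + 1) (fun j => if (j : ℕ) = 0 then k else 1) / n.factorial =
      ∑ i ∈ Finset.range (n + 1), η ^ i * t (h ^ (k + i)) * cf t η h (n - i) := by
    intro n
    induction n with
    | zero =>
      intro k
      rw [ite_update, Ph_first]
      simp [cf]
    | succ n ih =>
      intro k
      rw [ite_update, Ph_first, if_neg (by omega), Finset.sum_range_succ']
      have e2 : ∀ i, i ∈ Finset.range (n + 1) →
          η ^ (i + 1) * t (h ^ (k + (i + 1))) * cf t η h (n + 1 - (i + 1)) =
          η * (η ^ i * t (h ^ (k + 1 + i)) * cf t η h (n - i)) := by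
        intro i _
        rw [Nat.add_sub_add_right, show k + (i + 1) = k + 1 + i by ring, pow_succ]
        ring
      rw [Finset.sum_congr rfl e2, ← Finset.mul_sum, ← ih (k + 1)]
      have h3 : ((n + 1).factorial : ℚ) ≠ 0 := by positivity
      have h4 : (n.factorial : ℚ) ≠ 0 := by positivity
      have h5 : ((n + 1).factorial : ℚ) = (n + 1) * n.factorial := by
        rw [Nat.factorial_succ]
        push_cast
        ring
      have h6 : (n : ℚ) + 1 ≠ 0 := by positivity
      rw [cf, pow_zero, one_mul, add_zero, Nat.sub_zero, h5]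
      push_cast
      field_simp
      ring
  have h1 := key n 1
  have e1 : (fun j : Fin (n + 1) => if (j : ℕ) = 0 then 1 else 1) = fun _ => 1 := by
    funext j
    rw [ite_self]
  rw [e1] at h1
  have h4 : (n.factorial : ℚ) ≠ 0 := by positivity
  have h6 : (n : ℚ) + 1 ≠ 0 := by positivity
  rw [cf, Nat.factorial_succ]
  have h7 : ((n : ℚ) + 1) * (Ph t η h (n + 1) (fun _ => 1) / (((n + 1) * n.factorial : ℕ) : ℚ)) =
      Ph t η h (n + 1) (fun _ => 1) / n.factorial := by
    push_cast
    field_simp
  rw [h7, h1]
  refine Finset.sum_congr rfl fun i _ => ?_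
  rw [add_comm 1 i]

open PowerSeries in
/-- If both the elementary and the complete symmetric functions vanish for large orders then the
trace is zero. -/
theorem trace_zero {n₀ : ℕ} (h1 : ∀ n, n₀ ≤ n → F t 1 n (fun _ => h) = 0)
    (h2 : ∀ n, n₀ ≤ n → F t (-1) n (fun _ => h) = 0) : t h = 0 := by
  have hc : ∀ (η : ℚ) n, F t η n (fun _ => h) = 0 → cf t η h n = 0 := by
    intro η n hn
    have : Ph t η h n (fun _ => 1) = 0 := by
      rw [Ph]
      simpa using hn
    rw [cf, this, zero_div]
  have hc0 : ∀ η : ℚ, cf t η h 0 = 1 := by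
    intro η
    simp [cf, Ph, F]
  -- the two power series
  let H : ℚ⟦X⟧ := PowerSeries.mk fun n => cf t 1 h n
  let E : ℚ⟦X⟧ := PowerSeries.mk fun n => (-1) ^ n * cf t (-1) h n
  let P : ℚ⟦X⟧ := PowerSeries.mk fun n => t (h ^ (n + 1))
  have hH : d⁄dX ℚ H = P * H := by
    ext n
    rw [coeff_derivative, coeff_mul, coeff_mk, Finset.Nat.sum_antidiagonal_eq_sum_range_succ_mk,
      mul_comm, newton]
    refine Finset.sum_congr rfl fun i _ => ?_
    rw [coeff_mk, coeff_mk, one_pow, one_mul]
  have hE : d⁄dX ℚ E = -(P * E) := by
    ext n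
    rw [coeff_derivative, map_neg, coeff_mul, coeff_mk,
      Finset.Nat.sum_antidiagonal_eq_sum_range_succ_mk]
    have e1 : (-1) ^ (n + 1) * cf t (-1) h (n + 1) * ((n : ℚ) + 1) =
        (-1) ^ (n + 1) * (((n : ℚ) + 1) * cf t (-1) h (n + 1)) := by ring
    rw [e1, newton, Finset.mul_sum, ← Finset.sum_neg_distrib]
    refine Finset.sum_congr rfl fun i hi => ?_
    rw [coeff_mk, coeff_mk]
    have hi' : i ≤ n := by
      rw [Finset.mem_range] at hi
      omega
    obtain ⟨j, rfl⟩ := Nat.exists_eq_add_of_le hi'
    rw [Nat.add_sub_cancel_left]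
    have e2 : (-1 : ℚ) ^ (i + j + 1) * (-1) ^ i = -(-1) ^ j := by
      have e3 : (-1 : ℚ) ^ i * (-1) ^ i = 1 := by
        rw [← mul_pow]
        norm_num
      rw [pow_succ, pow_add]
      linear_combination (-(-1 : ℚ) ^ j) * e3
    linear_combination (t (h ^ (i + 1)) * cf t (-1) h j) * e2
  have hEH : d⁄dX ℚ (E * H) = 0 := by
    rw [Derivation.leibniz, hH, hE, smul_eq_mul, smul_eq_mul]
    ring
  have h3 : E * H = 1 := by
    ext n
    rcases n with - | n
    · rw [coeff_zero_eq_constantCoeff, map_mul, map_one]
      simp only [← coeff_zero_eq_constantCoeff_apply, E, H, coeff_mk, hc0]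
      norm_num
    · have h4 := congrArg (coeff n) hEH
      rw [coeff_derivative, map_zero] at h4
      rw [coeff_one, if_neg (by omega)]
      exact (mul_eq_zero.1 h4).resolve_right (by positivity)
  -- they are polynomials
  let p : Polynomial ℚ := trunc n₀ H
  let q : Polynomial ℚ := trunc n₀ E
  have hp : (p : ℚ⟦X⟧) = H := by
    ext n
    rw [Polynomial.coeff_coe, coeff_trunc]
    split_ifs with hn
    · rfl
    · rw [coeff_mk, hc _ _ (h1 n (by omega))]
  have hq : (q : ℚ⟦X⟧) = E := by
    ext n
    rw [Polynomial.coeff_coe, coeff_trunc]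
    split_ifs with hn
    · rfl
    · rw [coeff_mk, hc _ _ (h2 n (by omega)), mul_zero]
  have hqp : q * p = 1 := by
    apply Polynomial.coe_injective ℚ
    rw [Polynomial.coe_mul, hp, hq, h3, Polynomial.coe_one]
  have hunit : IsUnit p := IsUnit.of_mul_eq_one q (by rw [mul_comm]; exact hqp)
  have hdeg := Polynomial.natDegree_eq_zero_of_isUnit hunit
  have h5 : p.coeff 1 = 0 := Polynomial.coeff_eq_zero_of_natDegree_lt (by omega)
  have h6 : cf t 1 h 1 = 0 := by
    have h7 := congrArg (coeff 1) hp
    rw [Polynomial.coeff_coe, h5, coeff_mk] at h7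
    exact h7.symm
  have h8 := newton t 1 h 0
  rw [h6] at h8
  simp [hc0] at h8
  exact h8.symm

end Pool.Agent.Zk90.KR
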