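import Pool.Agent.Zk90.KR.Die
import Pool.Agent.Y112.KD.Zip
import Pool.Agent.Zk90.KR.Newton

/-!
# The ideals of endomorphisms with vanishing powers, and tensor cancellation
-/

set_option autoImplicit false
set_option linter.unusedSectionVars false
set_option linter.unusedSimpArgs false

open CategoryTheory Limits MonoidalCategory
open Pool.Agent.Y112.KD Pool.Agent.R905
open Pool.Agent.Y116.MT (tr)
open Pool.Agent.TH829.Kim (K F F_succ)
open Pool.Agent.Zk90.KG (FinI)

universe v u w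

namespace Pool.Agent.Zk90.KR

section

variable {C : Type u} [Category.{v} C] [Preadditive C] [Linear ℚ C] [MonoidalCategory C]
  [MonoidalPreadditive C] [MonoidalLinear ℚ C] [SymmetricCategory C]

lemma Dn_const {X : C} (f : X ⟶ X) (n : ℕ) : Dn n (fun _ => f) = tpm f n := by
  induction n with
  | zero => rfl
  | succ n ih =>
    rw [Dn_succ, ih]
    rfl

lemma gg_const {η : ℚ} {X : C} (f : End X) (n : ℕ) : gg η n (fun _ => f) =
    (n.factorial : ℚ) • (tpm (f : X ⟶ X) n ≫ asym η X n) := by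
  rw [gg]
  congr 2
  exact Dn_const (f : X ⟶ X) n

/-- the elements some power of which vanishes -/
def DieI (η : ℚ) {X : C} (f : End X) : Prop := ∃ n, PowerVanishes η (f : X ⟶ X) n

lemma pv_zero {η : ℚ} (hη : η * η = 1) (X : C) : PowerVanishes η (0 : X ⟶ X) 1 := by
  rw [pv_iff hη]
  have h1 : tpm (0 : X ⟶ X) 1 = 0 := by
    change (𝟙 _ ⊗ₘ (0 : X ⟶ X)) = 0
    rw [MonoidalCategory.tensorHom_def, MonoidalPreadditive.whiskerLeft_zero, comp_zero]
  rw [h1, zero_comp]

lemma DieI.left {η : ℚ} (hη : η * η = 1) {X : C} (a b : End X) (h : DieI η b) :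
    DieI η (a * b) := by
  obtain ⟨n, h⟩ := h
  refine ⟨n, ?_⟩
  have h1 := pv_comp hη (𝟙 X) (a : X ⟶ X) h
  rwa [Category.id_comp] at h1

lemma DieI.right {η : ℚ} (hη : η * η = 1) {X : C} (a b : End X) (h : DieI η a) :
    DieI η (a * b) := by
  obtain ⟨n, h⟩ := h
  refine ⟨n, ?_⟩
  have h1 := pv_comp hη (b : X ⟶ X) (𝟙 X) h
  rwa [Category.comp_id] at h1

variable [RightRigidCategory C]

lemma finI_dieI (hU : UnitQ C) {η : ℚ} (hη : η * η = 1) (X : C) :
    FinI (trq hU X) η (DieI η : End X → Prop) where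
  zero := ⟨1, pv_zero hη X⟩
  add := by
    rintro a b ⟨n, ha⟩ ⟨m, hb⟩
    exact ⟨n + m, pv_add hη ha hb⟩
  left := fun a b h => DieI.left hη a b h
  right := fun a b h => DieI.right hη a b h
  K_eq := by
    rintro a ⟨n, h⟩
    have h1 := (pv_iff hη _ _).1 (pv_mono hη h (Nat.le_succ n))
    refine ⟨n, ?_⟩
    rw [← cc_gg hU hη n, gg_const, h1, smul_zero, map_zero]
  F_eq := by
    rintro a ⟨n, h⟩
    refine ⟨n, fun k hk => ?_⟩
    have h0 : PowerVanishes η ((a ^ k : End X) : X ⟶ X) n := by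
      obtain ⟨j, rfl⟩ := Nat.exists_eq_add_of_le' hk
      rw [pow_succ]
      have h1 := pv_comp hη (𝟙 X) ((a ^ j : End X) : X ⟶ X) h
      rwa [Category.id_comp] at h1
    have h1 := (pv_iff hη _ _).1 (pv_mono hη h0 (Nat.le_succ n))
    have h2 := ff_gg hU hη (n + 1) (fun _ => a ^ k)
    rw [gg_const, h1, smul_zero, map_zero] at h2
    apply hU.inj
    rw [zero_smul]
    exact h2.symm

/-! ### Tensor cancellation -/

lemma zip_nat {A B : C} (f : A ⟶ A) (h : B ⟶ B) (n : ℕ) :
    tpm (f ⊗ₘ h) n ≫ zip A B n = zip A B n ≫ (tpm f n ⊗ₘ tpm h n) := by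
  induction n with
  | zero => simp [tpm, zip]
  | succ n ih =>
    have e1 : tpm (f ⊗ₘ h) (n + 1) = tpm (f ⊗ₘ h) n ⊗ₘ (f ⊗ₘ h) := rfl
    have e2 : tpm f (n + 1) = tpm f n ⊗ₘ f := rfl
    have e3 : tpm h (n + 1) = tpm h n ⊗ₘ h := rfl
    rw [zip_succ, e1, e2, e3, Category.assoc, ← tensorμ_natural, ← Category.assoc,
      ← Category.assoc]
    congr 1
    rw [← tensorHom_id, tensorHom_comp_tensorHom, tensorHom_comp_tensorHom, ih,
      Category.comp_id, Category.id_comp]

/-- If the exterior power of `f ⊗ h` vanishes then so does the product of the exterior and symmetric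
powers of `f` and `h`. -/
lemma zip_kill' {η θ : ℚ} (hη : η * η = 1) (hθ : θ * θ = 1) {A B : C} (f : A ⟶ A) (h : B ⟶ B)
    (n : ℕ) (h0 : PowerVanishes (η * θ) (f ⊗ₘ h) n) :
    (tpm f n ≫ asym η A n) ⊗ₘ (tpm h n ≫ asym θ B n) = 0 := by
  have h2 : tpm (f ⊗ₘ h) n ≫ zip A B n ≫ (asym η A n ⊗ₘ asym θ B n) = 0 := by
    apply h0
    intro s hs
    obtain ⟨s', s'', h3, h4, h5⟩ := zip_swap A B hs
    rw [← Category.assoc, h5, Category.assoc, tensorHom_comp_tensorHom, (swap_asym hη A h3).1,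
      (swap_asym hθ B h4).1]
    simp only [MonoidalCategory.tensorHom_def, MonoidalLinear.smul_whiskerRight,
      MonoidalLinear.whiskerLeft_smul, Linear.smul_comp, Linear.comp_smul, smul_smul,
      mul_comm θ η]
  obtain ⟨u, hu⟩ := zip_inv A B n
  rw [← Category.assoc, zip_nat, Category.assoc] at h2
  have h3 := congrArg (fun z => u ≫ z) h2
  simp only [reassoc_of% hu, comp_zero] at h3
  rw [← tensorHom_comp_tensorHom]
  exact h3

/-- Descent along a tensor factor. -/
theorem descent (hU : UnitQ C) {η θ : ℚ} (hη : η * η = 1) (hθ : θ * θ = 1) {A B : C} (f : A ⟶ A)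
    (h : End B) (n : ℕ) (h0 : PowerVanishes (η * θ) (f ⊗ₘ (h : B ⟶ B)) n)
    (hB : F (trq hU B) θ n (fun _ => h) ≠ 0) : PowerVanishes η f n := by
  rw [pv_iff hη]
  have h1 := tensor_ff (tpm f n ≫ asym η A n) n (gg θ n (fun _ : Fin n => h)) (by
    rw [gg_const, MonoidalCategory.tensorHom_def, MonoidalLinear.whiskerLeft_smul,
      Linear.comp_smul, ← MonoidalCategory.tensorHom_def, zip_kill' hη hθ f h n h0, smul_zero])
  rw [ff_gg hU hθ, MonoidalCategory.tensorHom_def, MonoidalLinear.whiskerLeft_smul,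
    Linear.comp_smul] at h1
  have h2 := (smul_eq_zero.1 h1).resolve_left hB
  rw [MonoidalCategory.whiskerLeft_id, Category.comp_id] at h2
  have h3 := congrArg (fun z => (ρ_ _).inv ≫ z ≫ (ρ_ _).hom) h2
  simpa using h3

lemma trq_ne (hU : UnitQ C) {B : C} (h : B ⟶ B) (ht : tr h ≠ 0) : trq hU B (h : End B) ≠ 0 := by
  intro h0
  apply ht
  have h1 := trq_spec hU (h : End B)
  rw [h0, zero_smul] at h1
  exact h1

/-- **Tensor cancellation for endomorphisms.** If some exterior or symmetric power of `f ⊗ h`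
vanishes and the trace of `h` is not zero then some exterior or symmetric power of `f` vanishes. -/
theorem cancel (hU : UnitQ C) {s : ℚ} (hs : s * s = 1) {A B : C} (f : A ⟶ A) (h : B ⟶ B)
    (n₀ : ℕ) (h0 : PowerVanishes s (f ⊗ₘ h) n₀) (ht : tr h ≠ 0) :
    (∃ n, PowerVanishes (-1) f n) ∨ ∃ n, PowerVanishes 1 f n := by
  by_contra hcon
  have h1 : ∀ (η : ℚ), η = 1 ∨ η = -1 → ∀ n, ¬ PowerVanishes η f n := by
    rintro η (rfl | rfl) n hn
    · exact hcon (Or.inr ⟨n, hn⟩)
    · exact hcon (Or.inl ⟨n, hn⟩)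
  have hs' : s = 1 ∨ s = -1 := by
    have h2 : (s - 1) * (s + 1) = 0 := by linear_combination hs
    rcases mul_eq_zero.1 h2 with h3 | h3
    · exact Or.inl (by linear_combination h3)
    · exact Or.inr (by linear_combination h3)
  have h2 : ∀ (θ : ℚ), θ = 1 ∨ θ = -1 → ∀ n, n₀ ≤ n →
      F (trq hU B) θ n (fun _ => (h : End B)) = 0 := by
    intro θ hθ n hn
    by_contra hF
    have hθ' : θ * θ = 1 := by rcases hθ with rfl | rfl <;> norm_num
    have e1 : (s * θ) * θ = s := by linear_combination s * hθ'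
    have e2 : (s * θ) * (s * θ) = 1 := by linear_combination (θ * θ) * hs + hθ'
    have e3 : s * θ = 1 ∨ s * θ = -1 := by
      rcases hθ with rfl | rfl <;> rcases hs' with rfl | rfl <;> norm_num
    exact h1 (s * θ) e3 n (descent hU e2 hθ' f (h : End B) n
      (by rw [e1]; exact pv_mono hs h0 hn) hF)
  exact trq_ne hU h ht (trace_zero (trq hU B) (h : End B) (h2 1 (Or.inl rfl))
    (h2 (-1) (Or.inr rfl)))

end

end Pool.Agent.Zk90.KR
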