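import Pool.Agent.Zk90.KR.Defs
import Pool.Agent.Zk90.KR.Ideal

/-!
# Kimura-finiteness and the ideal generated by the endomorphisms which have a sign
-/

set_option autoImplicit false
set_option linter.unusedSectionVars false
set_option linter.unusedSimpArgs false

open CategoryTheory Limits MonoidalCategory
open Pool.Agent.Y112.KD Pool.Agent.R905
open Pool.Agent.Y112.SR (ptr ptr_symm)
open Pool.Agent.Y116.MT (tr)
open Pool.Agent.Zk90.KS (exists_idem nil_of_mem)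

universe v u w

namespace Pool.Agent.Zk90.KR

variable {C : Type u} [Category.{v} C] [Preadditive C] [Linear ℚ C] [MonoidalCategory C]
  [MonoidalPreadditive C] [MonoidalLinear ℚ C] [SymmetricCategory C] [RightRigidCategory C]

lemma eta_neg : (-1 : ℚ) * (-1) = 1 := by norm_num

lemma eta_one : (1 : ℚ) * 1 = 1 := by norm_num

lemma HasSign.cases (hU : UnitQ C) {P : C} {f : P ⟶ P} (h : HasSign f) :
    (∃ n, PowerVanishes (-1) f n) ∨ ∃ n, PowerVanishes 1 f n := by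
  obtain ⟨N, h, ht, n, h1 | h1⟩ := h
  · exact cancel hU eta_neg f h n h1 ht
  · exact cancel hU eta_one f h n h1 ht

/-- the trace of the identity of the unit object is not zero -/
lemma tr_unit_ne (hU : UnitQ C) : tr (𝟙 (𝟙_ C)) ≠ 0 := by
  intro h0
  have h1 := ptr_symm (𝟙_ C)
  have h2 : (β_ (𝟙_ C) (𝟙_ C)).hom = 𝟙 (𝟙_ C) ⊗ₘ 𝟙 (𝟙_ C) := by
    rw [braiding_tensorUnit_left, unitors_equal, Iso.hom_inv_id, id_tensorHom_id]
  rw [h2, ptr_tensor (𝟙 (𝟙_ C)) (𝟙 (𝟙_ C)) 0 (by rw [h0, zero_smul]), zero_smul] at h1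
  exact hU.ne h1.symm

lemma hasSign_of (hU : UnitQ C) {P : C} {f : P ⟶ P}
    (h : (∃ n, PowerVanishes (-1) f n) ∨ ∃ n, PowerVanishes 1 f n) : HasSign f := by
  refine ⟨𝟙_ C, 𝟙 _, tr_unit_ne hU, ?_⟩
  have h1 : f ⊗ₘ 𝟙 (𝟙_ C) = (ρ_ P).hom ≫ f ≫ (ρ_ P).inv := by
    rw [tensorHom_id, MonoidalCategory.whiskerRight_id]
  rw [h1]
  rcases h with ⟨n, h⟩ | ⟨n, h⟩
  · exact ⟨n, Or.inl (pv_comp eta_neg _ _ h)⟩
  · exact ⟨n, Or.inr (pv_comp eta_one _ _ h)⟩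

/-- an endomorphism as an element of the ring of endomorphisms -/
def en {X : C} (f : X ⟶ X) : End X := f

lemma split_sum {M : C} (s : ℕ) (P : Fin s → C) (x : ∀ i, M ⟶ P i) (f : ∀ i, P i ⟶ P i)
    (y : ∀ i, P i ⟶ M) (h : ∀ i, (∃ n, PowerVanishes (-1) (f i) n) ∨ ∃ n, PowerVanishes 1 (f i) n)
    (T : Finset (Fin s)) : ∃ a b : End M, DieI (-1) a ∧ DieI 1 b ∧
      a + b = ∑ i ∈ T, en (x i ≫ f i ≫ y i) := by
  classical
  induction T using Finset.induction_on with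
  | empty => exact ⟨0, 0, ⟨1, pv_zero eta_neg M⟩, ⟨1, pv_zero eta_one M⟩, by simp⟩
  | insert i T hi ih =>
    obtain ⟨a, b, ⟨n, ha⟩, ⟨m, hb⟩, hab⟩ := ih
    rw [Finset.sum_insert hi, ← hab]
    rcases h i with ⟨k, hk⟩ | ⟨k, hk⟩
    · exact ⟨en (x i ≫ f i ≫ y i) + a, b,
        ⟨k + n, pv_add eta_neg (pv_comp eta_neg (x i) (y i) hk) ha⟩, ⟨m, hb⟩, by abel⟩
    · exact ⟨a, en (x i ≫ f i ≫ y i) + b, ⟨n, ha⟩,
        ⟨k + m, pv_add eta_one (pv_comp eta_one (x i) (y i) hk) hb⟩, by abel⟩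

lemma idem_of_sum (hU : UnitQ C) {M : C} {a b : End M} {n m : ℕ}
    (ha : PowerVanishes (-1) (a : M ⟶ M) n) (hb : PowerVanishes 1 (b : M ⟶ M) m)
    (hab : a + b = 1) : ∃ e : M ⟶ M, e ≫ e = e ∧ PowerVanishes (-1) e n ∧
      PowerVanishes 1 (𝟙 M - e) m := by
  obtain ⟨e, y, z, h1, h2, h3, -, -⟩ := exists_idem (finI_dieI hU eta_neg M)
    (finI_dieI hU eta_one M) ⟨n, ha⟩ ⟨m, hb⟩ hab
  refine ⟨e, h1, ?_, ?_⟩
  · have h4 : PowerVanishes (-1) ((a * y : End M) : M ⟶ M) n := by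
      have h5 := pv_comp eta_neg (y : M ⟶ M) (𝟙 M) ha
      rwa [Category.comp_id] at h5
    rw [h2]
    exact h4
  · have h4 : PowerVanishes 1 ((b * z : End M) : M ⟶ M) m := by
      have h5 := pv_comp eta_one (z : M ⟶ M) (𝟙 M) hb
      rwa [Category.comp_id] at h5
    rw [← h3] at h4
    exact h4

lemma kimura_of_sum (hU : UnitQ C) {M : C} {a b : End M} (ha : DieI (-1) a) (hb : DieI 1 b)
    (hab : a + b = 1) : IsKimuraFinite M := by
  obtain ⟨n, ha⟩ := ha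
  obtain ⟨m, hb⟩ := hb
  obtain ⟨e, h1, h2, h3⟩ := idem_of_sum hU ha hb hab
  exact ⟨e, h1, ⟨n, h2⟩, m, h3⟩

lemma IsSignedSum.split (hU : UnitQ C) {M : C} {S : End M} (h : IsSignedSum (S : M ⟶ M)) :
    ∃ a b : End M, DieI (-1) a ∧ DieI 1 b ∧ a + b = S := by
  obtain ⟨s, P, x, f, y, h1, h2⟩ := h
  obtain ⟨a, b, ha, hb, hab⟩ := split_sum s P x f y (fun i => (h1 i).cases hU) Finset.univ
  exact ⟨a, b, ha, hb, hab.trans h2.symm⟩

lemma isSignedSum_add (hU : UnitQ C) {M : C} {a b : M ⟶ M} {n m : ℕ}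
    (ha : PowerVanishes (-1) a n) (hb : PowerVanishes 1 b m) : IsSignedSum (a + b) := by
  refine ⟨2, fun _ => M, fun _ => 𝟙 M, ![a, b], fun _ => 𝟙 M, fun i => ?_, ?_⟩
  · refine hasSign_of hU ?_
    fin_cases i
    · exact Or.inl ⟨n, ha⟩
    · exact Or.inr ⟨m, hb⟩
  · simp [Fin.sum_univ_two]

/-- **Kimura-finiteness and the ideal generated by the endomorphisms which have a sign.** -/
theorem main (hU : UnitQ C) (M : C) : List.TFAE [
    IsKimuraFinite M,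
    IsSignedSum (𝟙 M),
    ∃ S : End M, IsSignedSum (S : M ⟶ M) ∧ IsNilpotent (1 - S)] := by
  tfae_have 1 → 2 := by
    rintro ⟨e, -, ⟨n, ha⟩, ⟨m, hb⟩⟩
    have h1 := isSignedSum_add hU ha hb
    rwa [add_sub_cancel] at h1
  tfae_have 2 → 3 := by
    intro h
    refine ⟨1, h, 1, ?_⟩
    rw [pow_one, sub_self]
  tfae_have 3 → 1 := by
    rintro ⟨S, hS, h2⟩
    obtain ⟨a, b, ha, hb, hab⟩ := hS.split hU
    have h3 : IsUnit (a + b) := by
      have h4 : IsNilpotent (1 - (a + b)) := by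
        rw [hab]
        exact h2
      have h5 := h4.isUnit_one_sub
      rwa [sub_sub_cancel] at h5
    obtain ⟨u, hu⟩ := h3.exists_right_inv
    rw [add_mul] at hu
    exact kimura_of_sum hU (DieI.right eta_neg a u ha) (DieI.right eta_one b u hb) hu
  tfae_finish

/-- The version with fixed exponents. -/
theorem exact_parts (hU : UnitQ C) (M : C) (n m : ℕ) :
    (∃ e : M ⟶ M, e ≫ e = e ∧ PowerVanishes (-1) e n ∧ PowerVanishes 1 (𝟙 M - e) m) ↔
      ∃ a b : M ⟶ M, PowerVanishes (-1) a n ∧ PowerVanishes 1 b m ∧ a + b = 𝟙 M := by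
  constructor
  · rintro ⟨e, -, h1, h2⟩
    exact ⟨e, 𝟙 M - e, h1, h2, by abel⟩
  · rintro ⟨a, b, ha, hb, hab⟩
    exact idem_of_sum hU (a := a) (b := b) ha hb hab

end Pool.Agent.Zk90.KR
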